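import Pool.Agent.Q109.D3.Eight
import Pool.Agent.Q109.D3.Two

/-!
# Even-cycle-subgraph-free graphs of diameter at most three have bounded treedepth

`Q109.D3.treedepth G` is the least height of a rooted forest on `V(G)`, given by a parent
function, such that all edges of `G` join vertices in ancestor-descendant relation.
-/

namespace Pool.Agent.Results.MP_22aefb_co.EvenCycleTreedepth

open Q109.D3

/-- For every `r ≥ 4` there is a constant `c` such that every finite `C_{2r}`-subgraph-free graph
of diameter at most three has treedepth at most `c`. -/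
theorem result (r : ℕ) (hr : 4 ≤ r) : ∃ c : ℕ, ∀ (V : Type) [Fintype V] (G : SimpleGraph V),
    (SimpleGraph.cycleGraph (2 * r)).Free G → G.Connected → (∀ u v, G.dist u v ≤ 3) →
    treedepth G ≤ c := by
  obtain ⟨c, hc⟩ := even_bounded r hr
  refine ⟨c, ?_⟩
  intro V _ G h1 h2 h3
  exact Nat.sInf_le (hc V G h1 (diamThree_of_dist h2 h3))

end Pool.Agent.Results.MP_22aefb_co.EvenCycleTreedepth
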